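import Pool.Agent.Helper188.Wei.Main
import Pool.Agent.Helper188.Wei.Lie
import Pool.Agent.Helper188.Wei.P_islie

/-!
# Divergent non-obvious orbits of every small connected subgroup of a split torus of `SL(n,ℝ)`
-/

open Matrix Filter Topology Wei

namespace Pool.Agent.Results.MP_bb6588_an.SLnAllTori

/-- Let `G = SL(n,ℝ)`, let `Γ` be any subgroup commensurable with `SL(n,ℤ)`, let
`A = splitTorus h` be a maximal `ℝ`-split torus of `G`, and let `D ≤ A` be a closed connected
subgroup with `0 < dim D < n - 1 = rank_ℚ G`. Then some orbit `D x` in `G/Γ` is divergent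
but not obvious. -/
theorem result :
    ∀ (n : ℕ) (Γ : Subgroup (SpecialLinearGroup (Fin n) ℝ)),
      Subgroup.Commensurable Γ (SLZ (Fin n)) →
      ∀ (h : SpecialLinearGroup (Fin n) ℝ) (D : Subgroup (SpecialLinearGroup (Fin n) ℝ)),
        D ≤ splitTorus h →
        IsClosed (D : Set (SpecialLinearGroup (Fin n) ℝ)) →
        IsConnected (D : Set (SpecialLinearGroup (Fin n) ℝ)) →
        0 < Module.finrank ℝ (lieAlg h D) →
        Module.finrank ℝ (lieAlg h D) < n - 1 →
        ∃ x : SpecialLinearGroup (Fin n) ℝ ⧸ Γ, Divergent Γ D x ∧ ¬ Obvious Γ D x := by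
  intro n Γ hΓ h D hDA hcl hconn hpos hlt
  have hdiag : ∀ d ∈ D, (h⁻¹ * d * h : SpecialLinearGroup (Fin n) ℝ).1.IsDiag := by
    intro d hd
    obtain ⟨t, ht⟩ := hDA hd
    rw [ht]
    exact Matrix.isDiag_diagonal t
  have hD : D = torus h (lieAlg h D) := by
    ext g
    exact islie h D hcl hconn.isPreconnected hdiag g
  have h0 : lieAlg h D ≠ ⊥ := by
    intro hb
    rw [hb, finrank_bot] at hpos
    exact lt_irrefl _ hpos
  have hfin : Module.finrank ℝ (lieAlg h D) + 2 ≤ Fintype.card (Fin n) := by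
    rw [Fintype.card_fin]
    omega
  have key := mainthm Γ hΓ h (lieAlg h D) h0 hfin
  rw [← hD] at key
  exact key

end Pool.Agent.Results.MP_bb6588_an.SLnAllTori
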